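import Pool.Agent.Helper67.LM.Defs

/-!
# Packet LM DLL: lower bound of the integral of `dl` over the cube
-/

open MeasureTheory Set
open scoped ENNReal Pointwise
open Pool.Agent.Helper47.AQ

noncomputable section

namespace Pool.Agent.Helper87.LM

open Pool.Agent.Helper67.LM

variable {ι : Type} [Fintype ι] [DecidableEq ι]

omit [DecidableEq ι] in
lemma bc_nonneg {y : ι → ℝ} (hy : y ∈ T ι) (o : Option ι) : 0 ≤ bc y o := by
  cases o with
  | none => show 0 ≤ 1 - ∑ i, y i; linarith [hy.2]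
  | some i => exact hy.1 i

omit [DecidableEq ι] in
lemma bc_sum (y : ι → ℝ) : ∑ o : Option ι, bc y o = 1 := by
  rw [Fintype.sum_option]
  show (1 - ∑ i, y i) + ∑ i, y i = 1
  ring

lemma co_nonneg {y : ι → ℝ} (hy : y ∈ T ι) (o : Option ι) (i : ι) : 0 ≤ co o y i :=
  bc_nonneg hy _

lemma co_sum (y : ι → ℝ) (o : Option ι) : ∑ i, co o y i = 1 - bc y o := by
  have h1 : ∑ o' : Option ι, bc y (Equiv.swap none o o') = 1 := by
    rw [Equiv.sum_comp (Equiv.swap none o) (fun o' => bc y o')]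
    exact bc_sum y
  rw [Fintype.sum_option, Equiv.swap_apply_left] at h1
  show ∑ i, bc y (Equiv.swap none o (some i)) = 1 - bc y o
  linarith

lemma co_sum_le {y : ι → ℝ} (hy : y ∈ T ι) (o : Option ι) : ∑ i, co o y i ≤ 1 := by
  rw [co_sum]
  linarith [bc_nonneg hy o]

/-- the functional is bounded by the norm -/
lemma abs_lin_le {y : ι → ℝ} (hy : y ∈ T ι) (o : Option ι) (u : ι → ℝ) :
    |∑ i, u i * co o y i| ≤ ‖u‖ := by
  calc |∑ i, u i * co o y i| ≤ ∑ i, |u i * co o y i| := Finset.abs_sum_le_sum_abs _ _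
    _ ≤ ∑ i, ‖u‖ * co o y i := by
      apply Finset.sum_le_sum
      intro i _
      rw [abs_mul, abs_of_nonneg (co_nonneg hy o i)]
      exact mul_le_mul_of_nonneg_right (norm_le_pi_norm u i) (co_nonneg hy o i)
    _ = ‖u‖ * ∑ i, co o y i := by rw [Finset.mul_sum]
    _ ≤ ‖u‖ * 1 := mul_le_mul_of_nonneg_left (co_sum_le hy o) (norm_nonneg _)
    _ = ‖u‖ := mul_one _

lemma dl_le {K : Set (ι → ℝ)} (hT : K ⊆ T ι) (o : Option ι) (u : ι → ℝ) {y : ι → ℝ}
    (hy : y ∈ K) : dl K o u ≤ ∑ i, u i * co o y i := by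
  apply csInf_le
  · refine ⟨-‖u‖, ?_⟩
    rintro _ ⟨y', hy', rfl⟩
    exact (abs_le.1 (abs_lin_le (hT hy') o u)).1
  · exact ⟨y, hy, rfl⟩

lemma le_dl {K : Set (ι → ℝ)} (hne : K.Nonempty) (o : Option ι) (u : ι → ℝ) {a : ℝ}
    (h : ∀ y ∈ K, a ≤ ∑ i, u i * co o y i) : a ≤ dl K o u := by
  apply le_csInf (hne.image _)
  rintro _ ⟨y, hy, rfl⟩
  exact h y hy

lemma dl_cont {K : Set (ι → ℝ)} (hne : K.Nonempty) (hT : K ⊆ T ι) (o : Option ι) :
    Continuous (dl K o) := by
  have h : LipschitzWith 1 (dl K o) := by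
    apply LipschitzWith.of_le_add
    intro u v
    have h1 : dl K o u - dist u v ≤ dl K o v := by
      apply le_dl hne
      intro y hy
      have h2 := dl_le hT o u hy
      have h3 := abs_lin_le (hT hy) o (u - v)
      have h4 : ∑ i, (u - v) i * co o y i = ∑ i, u i * co o y i - ∑ i, v i * co o y i := by
        rw [← Finset.sum_sub_distrib]
        apply Finset.sum_congr rfl
        intro i _
        rw [Pi.sub_apply]; ring
      rw [h4, ← dist_eq_norm] at h3
      have h5 := (abs_le.1 h3).2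
      linarith
    linarith
  exact h.continuous

omit [DecidableEq ι] in
lemma measurable_inf [Nonempty ι] : Measurable (fun u : ι → ℝ => ⨅ j, u j) :=
  Measurable.iInf fun j => measurable_pi_apply j

omit [DecidableEq ι] in
lemma measurableSet_cub : MeasurableSet (cub ι) := by
  have h : cub ι = Set.pi Set.univ (fun _ : ι => Ioo (0 : ℝ) 1) := by
    ext u
    simp [cub]
  rw [h]
  exact MeasurableSet.univ_pi fun _ => measurableSet_Ioo

theorem dll [Nonempty ι]
    (hCUB : volume (cub ι) = 1 ∧ (∀ i, ∫ u in cub ι, u i = 1 / 2) ∧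
      ∫ u in cub ι, (⨅ j, u j) = 1 / ((Fintype.card ι : ℝ) + 1) ∧
      ∀ κ : ℝ, 0 ≤ κ → (volume {u : ι → ℝ | u ∈ cub ι ∧ (⨅ j, u j) < κ}).toReal ≤
        Fintype.card ι * κ)
    {K : Set (ι → ℝ)} (hK : IsBody K) (hT : K ⊆ T ι) (κ θ e : ℝ)
    (hκ0 : 0 ≤ κ) (hκ1 : κ ≤ 1) (hθ0 : 0 ≤ θ) (hθ1 : θ ≤ 1) (o : Option ι) (d : ι → ℝ)
    (hd0 : ∀ i, 0 ≤ d i) (hds : ∑ i, d i ≤ κ ^ 3) (he0 : 0 ≤ e) (he1 : e ≤ κ ^ 3)
    (hKe : ∀ y ∈ K, bc y o ≤ 1 - e)
    (hKd : ∀ y ∈ K, 1 - κ ^ 2 ≤ bc y o → ∀ i, d i ≤ co o y i) :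
    (Continuous (dl K o) ∧ (∀ u ∈ P ι, 0 ≤ dl K o u) ∧
      ∀ t : ℝ, 0 < t → ∀ u, dl K o (t • u) = t * dl K o u) ∧
    θ * (∑ i, d i) / 2 + (1 - θ) * e / ((Fintype.card ι : ℝ) + 1) - Fintype.card ι * κ ^ 4 ≤
      ∫ u in cub ι, dl K o u := by
  obtain ⟨hvol, hmean, hmin, hsmall⟩ := hCUB
  have hne := hK.nonempty
  have hcont := dl_cont hne hT o
  have hpos : ∀ u ∈ P ι, 0 ≤ dl K o u := fun u hu =>
    le_dl hne o u fun y hy =>
      Finset.sum_nonneg fun i _ => mul_nonneg (hu i).le (co_nonneg (hT hy) o i)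
  have hcubP : ∀ u ∈ cub ι, u ∈ P ι := fun u hu i => (hu i).1
  refine ⟨⟨hcont, hpos, ?_⟩, ?_⟩
  · intro t ht u
    have h1 : (fun y : ι → ℝ => ∑ i, (t • u) i * co o y i) '' K =
        t • ((fun y : ι → ℝ => ∑ i, u i * co o y i) '' K) := by
      rw [← Set.image_smul, Set.image_image]
      apply Set.image_congr
      intro y _
      rw [smul_eq_mul, Finset.mul_sum]
      apply Finset.sum_congr rfl
      intro i _
      rw [Pi.smul_apply, smul_eq_mul]; ring
    show sInf _ = t * sInf _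
    rw [h1, Real.sInf_smul_of_nonneg ht.le, smul_eq_mul]
  -- facts on the minimum
  have hm_le : ∀ (u : ι → ℝ) (i : ι), (⨅ j, u j) ≤ u i := fun u i =>
    ciInf_le (Set.finite_range _).bddBelow i
  have hm0 : ∀ u ∈ cub ι, 0 ≤ ⨅ j, u j := fun u hu => le_ciInf fun j => (hu j).1.le
  have hm1 : ∀ u ∈ cub ι, (⨅ j, u j) ≤ 1 := fun u hu => by
    obtain ⟨j⟩ := ‹Nonempty ι›
    exact (hm_le u j).trans (hu j).2.le
  set S : Set (ι → ℝ) := {u | (⨅ j, u j) < κ} with hS
  have hSm : MeasurableSet S := measurableSet_lt measurable_inf measurable_const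
  set g : (ι → ℝ) → ℝ := fun u =>
    θ * ∑ i, d i * u i + (1 - θ) * e * (⨅ j, u j) - κ ^ 3 * S.indicator 1 u with hg
  have hκ3 : 0 ≤ κ ^ 3 := pow_nonneg hκ0 3
  have hpt : ∀ u ∈ cub ι, g u ≤ dl K o u := by
    intro u hu
    apply le_dl hne
    intro y hy
    set m := ⨅ j, u j with hm
    have hm0' : 0 ≤ m := hm0 u hu
    have hm1' : m ≤ 1 := hm1 u hu
    have hind0 : 0 ≤ S.indicator (1 : (ι → ℝ) → ℝ) u :=
      Set.indicator_nonneg (fun _ _ => zero_le_one) u
    have hdu : ∑ i, d i * u i ≤ κ ^ 3 := by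
      refine le_trans (Finset.sum_le_sum fun i _ => ?_) hds
      exact mul_le_of_le_one_right (hd0 i) (hu i).2.le
    have hem : e * m ≤ κ ^ 3 := (mul_le_of_le_one_right he0 hm1').trans he1
    have hs1 : m * (1 - bc y o) ≤ ∑ i, u i * co o y i := by
      rw [← co_sum, Finset.mul_sum]
      exact Finset.sum_le_sum fun i _ =>
        mul_le_mul_of_nonneg_right (hm_le u i) (co_nonneg (hT hy) o i)
    have hs0 : 0 ≤ ∑ i, u i * co o y i :=
      Finset.sum_nonneg fun i _ => mul_nonneg (hu i).1.le (co_nonneg (hT hy) o i)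
    have hθ' : 0 ≤ 1 - θ := by linarith
    show θ * ∑ i, d i * u i + (1 - θ) * e * m - κ ^ 3 * S.indicator 1 u ≤ _
    rcases lt_or_ge m κ with hmκ | hmκ
    · have h1 : S.indicator (1 : (ι → ℝ) → ℝ) u = 1 := by
        rw [Set.indicator_of_mem (show u ∈ S from hmκ)]; rfl
      rw [h1]
      have h2 : θ * ∑ i, d i * u i ≤ θ * κ ^ 3 := mul_le_mul_of_nonneg_left hdu hθ0
      have h3 : (1 - θ) * e * m ≤ (1 - θ) * κ ^ 3 := by
        rw [mul_assoc]; exact mul_le_mul_of_nonneg_left hem hθ'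
      linarith
    · have h4 : 0 ≤ κ ^ 3 * S.indicator (1 : (ι → ℝ) → ℝ) u := mul_nonneg hκ3 hind0
      have h5 : θ * ∑ i, d i * u i + (1 - θ) * e * m ≤ ∑ i, u i * co o y i := by
        rcases le_or_gt (1 - κ ^ 2) (bc y o) with hb | hb
        · have h6 : ∑ i, d i * u i ≤ ∑ i, u i * co o y i := by
            apply Finset.sum_le_sum
            intro i _
            rw [mul_comm]
            exact mul_le_mul_of_nonneg_left (hKd y hy hb i) (hu i).1.le
          have h7 : e * m ≤ ∑ i, u i * co o y i := by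
            refine le_trans ?_ hs1
            rw [mul_comm]
            exact mul_le_mul_of_nonneg_left (by linarith [hKe y hy]) hm0'
          have h8 : θ * ∑ i, d i * u i ≤ θ * ∑ i, u i * co o y i :=
            mul_le_mul_of_nonneg_left h6 hθ0
          have h9 : (1 - θ) * (e * m) ≤ (1 - θ) * ∑ i, u i * co o y i :=
            mul_le_mul_of_nonneg_left h7 hθ'
          rw [mul_assoc]
          linarith
        · have h6 : κ ^ 3 ≤ ∑ i, u i * co o y i := by
            refine le_trans ?_ hs1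
            calc κ ^ 3 = κ * κ ^ 2 := by ring
              _ ≤ m * (1 - bc y o) :=
                mul_le_mul hmκ (by linarith) (pow_nonneg hκ0 2) hm0'
          have h8 : θ * ∑ i, d i * u i ≤ θ * κ ^ 3 := mul_le_mul_of_nonneg_left hdu hθ0
          have h9 : (1 - θ) * (e * m) ≤ (1 - θ) * κ ^ 3 := mul_le_mul_of_nonneg_left hem hθ'
          rw [mul_assoc]
          linarith
      linarith
  -- integration
  have hfin : IsFiniteMeasure (volume.restrict (cub ι)) := by
    constructor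
    rw [Measure.restrict_apply_univ, hvol]
    exact ENNReal.one_lt_top
  have hae : ∀ᵐ u ∂(volume.restrict (cub ι)), u ∈ cub ι := ae_restrict_mem measurableSet_cub
  have hint1 : ∀ i, Integrable (fun u : ι → ℝ => u i) (volume.restrict (cub ι)) := by
    intro i
    apply Integrable.of_bound (measurable_pi_apply i).aestronglyMeasurable 1
    filter_upwards [hae] with u hu
    rw [Real.norm_eq_abs, abs_of_nonneg (hu i).1.le]
    exact (hu i).2.le
  have hint2 : Integrable (fun u : ι → ℝ => ⨅ j, u j) (volume.restrict (cub ι)) := by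
    apply Integrable.of_bound measurable_inf.aestronglyMeasurable 1
    filter_upwards [hae] with u hu
    rw [Real.norm_eq_abs, abs_of_nonneg (hm0 u hu)]
    exact hm1 u hu
  have hint3 : Integrable (S.indicator (1 : (ι → ℝ) → ℝ)) (volume.restrict (cub ι)) :=
    (integrable_const (1 : ℝ)).indicator hSm
  have hint4 : Integrable (dl K o) (volume.restrict (cub ι)) := by
    apply Integrable.of_bound hcont.measurable.aestronglyMeasurable 1
    filter_upwards [hae] with u hu
    rw [Real.norm_eq_abs, abs_of_nonneg (hpos u (hcubP u hu))]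
    obtain ⟨y, hy⟩ := hne
    refine (dl_le hT o u hy).trans ?_
    refine le_trans (Finset.sum_le_sum fun i _ => ?_) (co_sum_le (hT hy) o)
    exact mul_le_of_le_one_left (co_nonneg (hT hy) o i) (hu i).2.le
  have hint5 : Integrable (fun u : ι → ℝ => θ * ∑ i, d i * u i) (volume.restrict (cub ι)) :=
    (integrable_finsetSum _ fun i _ => (hint1 i).const_mul (d i)).const_mul θ
  have hint6 : Integrable (fun u : ι → ℝ => (1 - θ) * e * (⨅ j, u j))
      (volume.restrict (cub ι)) := hint2.const_mul _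
  have hint7 : Integrable (fun u : ι → ℝ => κ ^ 3 * S.indicator (1 : (ι → ℝ) → ℝ) u)
      (volume.restrict (cub ι)) := hint3.const_mul _
  have hgint : Integrable g (volume.restrict (cub ι)) := (hint5.add hint6).sub hint7
  have hle : ∫ u in cub ι, g u ≤ ∫ u in cub ι, dl K o u := by
    apply integral_mono_ae hgint hint4
    filter_upwards [hae] with u hu
    exact hpt u hu
  refine le_trans ?_ hle
  have hg1 : ∫ u in cub ι, g u = θ * (∑ i, d i) / 2 + (1 - θ) * e / ((Fintype.card ι : ℝ) + 1) -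
      κ ^ 3 * (volume {u : ι → ℝ | u ∈ cub ι ∧ (⨅ j, u j) < κ}).toReal := by
    have h1 : ∫ u in cub ι, g u = (∫ u in cub ι, θ * ∑ i, d i * u i) +
        (∫ u in cub ι, (1 - θ) * e * (⨅ j, u j)) -
        (∫ u in cub ι, κ ^ 3 * S.indicator (1 : (ι → ℝ) → ℝ) u) := by
      have h2 : Integrable (fun u : ι → ℝ => θ * ∑ i, d i * u i + (1 - θ) * e * (⨅ j, u j))
          (volume.restrict (cub ι)) := hint5.add hint6
      rw [← integral_add hint5 hint6, ← integral_sub h2 hint7]
    rw [h1, integral_const_mul, integral_const_mul, integral_const_mul, hmin,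
      integral_finsetSum _ fun i _ => (hint1 i).const_mul (d i)]
    have h2 : ∑ i, ∫ u in cub ι, d i * u i = (∑ i, d i) / 2 := by
      rw [Finset.sum_div]
      apply Finset.sum_congr rfl
      intro i _
      rw [integral_const_mul, hmean]; ring
    have h3 : ∫ u in cub ι, S.indicator (1 : (ι → ℝ) → ℝ) u =
        (volume {u : ι → ℝ | u ∈ cub ι ∧ (⨅ j, u j) < κ}).toReal := by
      rw [integral_indicator_one hSm, measureReal_def, Measure.restrict_apply hSm]
      congr 2
      ext u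
      exact and_comm
    rw [h2, h3]
    ring
  rw [hg1]
  have h4 := mul_le_mul_of_nonneg_left (hsmall κ hκ0) hκ3
  have h5 : κ ^ 3 * (Fintype.card ι * κ) = Fintype.card ι * κ ^ 4 := by ring
  linarith

end Pool.Agent.Helper87.LM
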